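import Mathlib
import Pool.Agent.RatioGrowth.Magnus

set_option autoImplicit false

open Pointwise

namespace Pool.Agent.Results.MP_b59cbc_al.MagnusGroups

/-- Let `F` be a free group and `N` a nontrivial normal subgroup of infinite index. Let `m ≠ 1` be a
natural number (`m = 0` is allowed) and let `K` be a normal subgroup of `F` with
`[N, N] ≤ K ≤ [N, N] N ^ m`. For every finite generating set `S` of `G = F / K` there is `ε > 0` such
that the sphere of radius `n + 1` has at least `ε` times as many elements as the ball of radius `n`,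
for every `n`. -/
theorem result {α : Type*} (N : Subgroup (FreeGroup α)) [N.Normal] (hN : N ≠ ⊥)
    [Infinite (FreeGroup α ⧸ N)] (m : ℕ) (hm : m ≠ 1) (K : Subgroup (FreeGroup α)) [K.Normal]
    (hK1 : ⁅N, N⁆ ≤ K) (hK2 : K ≤ ⁅N, N⁆ ⊔ Subgroup.closure {y | ∃ x ∈ N, y = x ^ m})
    [DecidableEq (FreeGroup α ⧸ K)] (S : Finset (FreeGroup α ⧸ K))
    (hS : Subgroup.closure (S : Set (FreeGroup α ⧸ K)) = ⊤) :
    ∃ ε : ℝ, 0 < ε ∧ ∀ n : ℕ,
      ε * (((S ∪ S⁻¹ ∪ {1}) ^ n).card : ℝ) ≤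
        (((S ∪ S⁻¹ ∪ {1}) ^ (n + 1)).card : ℝ) - (((S ∪ S⁻¹ ∪ {1}) ^ n).card : ℝ) :=
  Pool.Agent.RatioGrowth.magnus_ratio N m hm hN K hK1 hK2 S hS

end Pool.Agent.Results.MP_b59cbc_al.MagnusGroups
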