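import Mathlib
import Pool.Agent.RatioGrowth.PLGroup

set_option autoImplicit false

open Pointwise
open Pool.Agent.RatioGrowth

namespace Pool.Agent.Results.MP_b59cbc_al.PLHomeoGroups

/-- Let `G` be a group with a finite generating set `S` and `φ` a homomorphism from `G` to the group
`ℝ ≃o ℝ` of increasing bijections of the line, all of whose values are piecewise linear with finitely
many pieces. Suppose that the commutator subgroup of `G` contains an element `x` such that `φ x` is
not the identity and has bounded support and `φ` is injective on the normal closure of `x` (if `φ` is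
injective and all supports are in `[0, 1]`, every nontrivial element of the commutator subgroup will
do). Then there is `ε > 0` such that the sphere of radius `n + 1` of `G` has at least `ε` times as
many elements as the ball of radius `n`, for every `n`. -/
theorem result {G : Type*} [Group G] [DecidableEq G] (φ : G →* (ℝ ≃o ℝ))
    (hpl : ∀ g : G, IsPiecewiseLinear (φ g))
    (x : G) (hx : x ∈ commutator G) (hne : φ x ≠ 1)
    (hbd : ∃ a b : ℝ, ∀ z : ℝ, (z ≤ a ∨ b ≤ z) → φ x z = z)
    (hinj : ∀ y ∈ Subgroup.normalClosure {x}, φ y = 1 → y = 1)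
    (S : Finset G) (hS : Subgroup.closure (S : Set G) = ⊤) :
    ∃ ε : ℝ, 0 < ε ∧ ∀ n : ℕ,
      ε * (((S ∪ S⁻¹ ∪ {1}) ^ n).card : ℝ) ≤
        (((S ∪ S⁻¹ ∪ {1}) ^ (n + 1)).card : ℝ) - (((S ∪ S⁻¹ ∪ {1}) ^ n).card : ℝ) :=
  pl_ratio φ hpl x hx hne hbd hinj S hS

end Pool.Agent.Results.MP_b59cbc_al.PLHomeoGroups
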