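import Mathlib
import Pool.Agent.RatioGrowth.FCByCyclic

set_option autoImplicit false

open Pointwise

namespace Pool.Agent.Results.MP_b59cbc_al.VirtuallyFCByCyclic

/-- Let `G` be a finitely generated group of exponential growth which has a finite index subgroup `H`
with a normal subgroup `N` such that `H / N` is cyclic and every element of `N` has only finitely many
conjugates under `N` (for instance `N` abelian, or `N` finite-by-abelian, or `N` a direct sum of finite
groups). For every finite generating set `S` of `G` there is `ε > 0` such that the sphere of radius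
`n + 1` has at least `ε` times as many elements as the ball of radius `n`, for every `n`. -/
theorem result {G : Type*} [Group G] [DecidableEq G] (H : Subgroup G) (hH : H.FiniteIndex)
    (N : Subgroup H) (hN : N.Normal)
    (hfc : ∀ x ∈ N, {y : H | ∃ g ∈ N, y = g * x * g⁻¹}.Finite)
    (hcyc : IsCyclic (H ⧸ N))
    (S : Finset G) (hS : Subgroup.closure (S : Set G) = ⊤)
    (hexp : ∃ c : ℝ, 1 < c ∧ ∀ n : ℕ, c ^ n ≤ (((S ∪ S⁻¹ ∪ {1}) ^ n).card : ℝ)) :
    ∃ ε : ℝ, 0 < ε ∧ ∀ n : ℕ,
      ε * (((S ∪ S⁻¹ ∪ {1}) ^ n).card : ℝ) ≤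
        (((S ∪ S⁻¹ ∪ {1}) ^ (n + 1)).card : ℝ) - (((S ∪ S⁻¹ ∪ {1}) ^ n).card : ℝ) :=
  Pool.Agent.RatioGrowth.virtually_fc_by_cyclic H hH N hN hfc hcyc S hS hexp

end Pool.Agent.Results.MP_b59cbc_al.VirtuallyFCByCyclic
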