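import Mathlib
import Pool.Agent.RatioGrowth.WreathSub

set_option autoImplicit false

open Pointwise
open Pool.Agent.RatioGrowth

namespace Pool.Agent.Results.MP_b59cbc_al.WreathSubgroups

/-- Let a group `H` act by automorphisms on the vertex set `X` of a connected locally finite graph,
let `L` be a group, let `G` be a group with a finite generating set `S` and let `φ` be a homomorphism
from `G` to the restricted permutational wreath product `PermWreath L H X`. Suppose that some `a ∈ G`
is mapped into the base group, with `φ a` not `1` at some vertex `x₀` whose orbit under (the image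
in `H` of) `G` is infinite, and that `φ` is injective on the normal closure of `a`. Then there is
`ε > 0` such that the sphere of radius `n + 1` of `G` has at least `ε` times as many elements as the
ball of radius `n`, for every `n`. -/
theorem result {G L H X : Type*} [Group G] [DecidableEq G] [Group L] [Group H]
    [MulAction H X] (Γ : SimpleGraph X) (hconn : Γ.Connected)
    (hfin : ∀ v : X, (Γ.neighborSet v).Finite)
    (haut : ∀ (h : H) (x y : X), Γ.Adj x y → Γ.Adj (h • x) (h • y))
    (φ : G →* PermWreath L H X) (a : G) (hpos : (φ a).pos = 1) (x₀ : X)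
    (ha : (φ a).lamp x₀ ≠ 1) (horb : {x : X | ∃ g : G, (φ g).pos • x₀ = x}.Infinite)
    (hinj : ∀ y ∈ Subgroup.normalClosure {a}, φ y = 1 → y = 1)
    (S : Finset G) (hS : Subgroup.closure (S : Set G) = ⊤) :
    ∃ ε : ℝ, 0 < ε ∧ ∀ n : ℕ,
      ε * (((S ∪ S⁻¹ ∪ {1}) ^ n).card : ℝ) ≤
        (((S ∪ S⁻¹ ∪ {1}) ^ (n + 1)).card : ℝ) - (((S ∪ S⁻¹ ∪ {1}) ^ n).card : ℝ) :=
  wreath_hom_ratio Γ hconn hfin haut φ a hpos x₀ ha horb hinj S hS

end Pool.Agent.Results.MP_b59cbc_al.WreathSubgroups
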